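import Mathlib

/-!
# Independent sets in the strong powers of the 5-cycle, for every odd exponent `n ≥ 5`

An independent set of size 51 in the fifth strong power (the same words as in `Pool.Agent.S10468`), an independent set of size 5 in the square, and products.
-/

set_option autoImplicit false

open Finset

namespace Pool.Agent.H37I

/-- The strong power `C₅ ⊠ ⋯ ⊠ C₅` (`n` factors): the vertices are the words of length `n` over `ℤ/5ℤ`, and two distinct words are adjacent iff they differ by `0`, `1` or `-1` modulo `5` in every coordinate. -/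
def strongPower (n : ℕ) : SimpleGraph (Fin n → ZMod 5) where
  Adj x y := x ≠ y ∧ ∀ i, x i - y i = 0 ∨ x i - y i = 1 ∨ x i - y i = -1
  symm := ⟨by
    rintro x y ⟨h, h'⟩
    refine ⟨h.symm, fun i => ?_⟩
    have e : y i - x i = -(x i - y i) := by ring
    rcases h' i with h | h | h
    · left; rw [e, h, neg_zero]
    · right; right; rw [e, h]
    · right; left; rw [e, h, neg_neg]⟩
  loopless := ⟨fun x h => h.1 rfl⟩

/-- two letters are far: they differ by two or three -/
def Far (a b : ZMod 5) : Prop := a - b = 2 ∨ a - b = 3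

instance (a b : ZMod 5) : Decidable (Far a b) := inferInstanceAs (Decidable (_ ∨ _))

theorem far_iff (a b : ZMod 5) : Far a b ↔ ¬ (a - b = 0 ∨ a - b = 1 ∨ a - b = -1) := by
  unfold Far
  generalize a - b = c
  revert c
  decide

/-- a set of words is independent iff any two distinct words are far in some coordinate -/
theorem indep_iff {n : ℕ} (S : Set (Fin n → ZMod 5)) :
    (strongPower n).IsIndepSet S ↔ ∀ x ∈ S, ∀ y ∈ S, x ≠ y → ∃ i, Far (x i) (y i) := by
  constructor
  · intro h x hx y hy hxy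
    have h1 := h hx hy hxy
    by_contra h2
    push Not at h2
    refine h1 ⟨hxy, fun i => ?_⟩
    by_contra h3
    exact h2 i ((far_iff _ _).2 h3)
  · intro h x hx y hy hxy hadj
    obtain ⟨i, hi⟩ := h x hx y hy hxy
    exact (far_iff _ _).1 hi (hadj.2 i)

/-- The word whose `i`-th letter is the `i`-th digit of `x` in base five. -/
def word (n x : ℕ) : Fin n → ZMod 5 := fun i => ((x / 5 ^ (i : ℕ) : ℕ) : ZMod 5)

/-- Codes (in base five) of the 51 words: the word 11111 and ten orbits of the cyclic shift. -/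
def codes : List ℕ := [71, 141, 249, 263, 304, 327, 355, 401, 512, 598, 639, 653, 705, 781, 813, 941, 1064, 1212, 1245, 1315, 1352, 1492, 1520, 1548, 1581, 1599, 1608, 1635, 1657, 1747, 1775, 1792, 1927, 1994, 2005, 2037, 2184, 2196, 2454, 2487, 2549, 2560, 2627, 2712, 2819, 2898, 2936, 2990, 3009, 3063, 3101]

/-- In some coordinate `i < n` the two words differ by two or three modulo five. -/
def far (n x y : ℕ) : Bool := (List.range n).any fun i =>
  (x / 5 ^ i % 5 + 5 - y / 5 ^ i % 5) % 5 == 2 || (x / 5 ^ i % 5 + 5 - y / 5 ^ i % 5) % 5 == 3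

theorem codes_far : ∀ x ∈ codes, ∀ y ∈ codes, x = y ∨ far 5 x y = true := by decide +kernel

theorem codes_card : codes.toFinset.card = 51 := by decide +kernel

/-- the five words `(a, 2 a)` -/
def codes2 : List ℕ := [0, 11, 22, 8, 19]

theorem codes2_far : ∀ x ∈ codes2, ∀ y ∈ codes2, x = y ∨ far 2 x y = true := by decide +kernel

theorem codes2_card : codes2.toFinset.card = 5 := by decide +kernel

theorem far_spec {n x y : ℕ} (h : far n x y = true) : ∃ i : Fin n, Far (word n x i) (word n y i) := by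
  simp only [far, List.any_eq_true, List.mem_range, Bool.or_eq_true, beq_iff_eq] at h
  obtain ⟨i, hi, h⟩ := h
  refine ⟨⟨i, hi⟩, ?_⟩
  have key : ∀ a b c : ℕ, (a % 5 + 5 - b % 5) % 5 = c % 5 → ((a : ℕ) : ZMod 5) - ((b : ℕ) : ZMod 5) = ((c : ℕ) : ZMod 5) := by
    intro a b c hc
    rw [sub_eq_iff_eq_add, ← Nat.cast_add, ZMod.natCast_eq_natCast_iff]
    unfold Nat.ModEq
    omega
  rcases h with h | h
  · left
    exact key _ _ 2 h
  · right
    exact key _ _ 3 h

/-- from a list of codes to an independent set -/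
theorem set_of_codes {n m : ℕ} (L : List ℕ) (hL : ∀ x ∈ L, ∀ y ∈ L, x = y ∨ far n x y = true) (hc : L.toFinset.card = m) :
    ∃ S : Finset (Fin n → ZMod 5), S.card = m ∧ ∀ x ∈ S, ∀ y ∈ S, x ≠ y → ∃ i, Far (x i) (y i) := by
  classical
  have hself : ∀ a : ZMod 5, ¬ Far a a := by
    intro a h
    unfold Far at h
    rw [sub_self] at h
    revert h
    decide
  refine ⟨L.toFinset.image (word n), ?_, ?_⟩
  · rw [Finset.card_image_of_injOn, hc]
    intro x hx y hy h
    have hx' : x ∈ L := List.mem_toFinset.1 hx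
    have hy' : y ∈ L := List.mem_toFinset.1 hy
    rcases hL x hx' y hy' with h1 | h1
    · exact h1
    · obtain ⟨i, hi⟩ := far_spec h1
      have h2 : word n x = word n y := h
      rw [h2] at hi
      exact absurd hi (hself _)
  · intro u hu v hv huv
    obtain ⟨x, hx, rfl⟩ := Finset.mem_image.1 hu
    obtain ⟨y, hy, rfl⟩ := Finset.mem_image.1 hv
    have hxy : x ≠ y := fun h => huv (by rw [h])
    exact far_spec ((hL x (List.mem_toFinset.1 hx) y (List.mem_toFinset.1 hy)).resolve_left hxy)

/-- products of sets of words -/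
theorem prod_set {n m a b : ℕ} (hS : ∃ S : Finset (Fin n → ZMod 5), S.card = a ∧ ∀ x ∈ S, ∀ y ∈ S, x ≠ y → ∃ i, Far (x i) (y i))
    (hT : ∃ T : Finset (Fin m → ZMod 5), T.card = b ∧ ∀ x ∈ T, ∀ y ∈ T, x ≠ y → ∃ i, Far (x i) (y i)) :
    ∃ U : Finset (Fin (n + m) → ZMod 5), U.card = a * b ∧ ∀ x ∈ U, ∀ y ∈ U, x ≠ y → ∃ i, Far (x i) (y i) := by
  classical
  obtain ⟨S, hSc, hS⟩ := hS
  obtain ⟨T, hTc, hT⟩ := hT
  refine ⟨(S ×ˢ T).image fun p => Fin.append p.1 p.2, ?_, ?_⟩
  · rw [Finset.card_image_of_injective, Finset.card_product, hSc, hTc]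
    rintro ⟨x, y⟩ ⟨x', y'⟩ h
    have h' : Fin.append x y = Fin.append x' y' := h
    have h1 : x = x' := by
      funext i
      have := congrFun h' (Fin.castAdd m i)
      rwa [Fin.append_left, Fin.append_left] at this
    have h2 : y = y' := by
      funext i
      have := congrFun h' (Fin.natAdd n i)
      rwa [Fin.append_right, Fin.append_right] at this
    rw [h1, h2]
  · intro u hu v hv huv
    obtain ⟨⟨x, y⟩, hp, rfl⟩ := Finset.mem_image.1 hu
    obtain ⟨⟨x', y'⟩, hq, rfl⟩ := Finset.mem_image.1 hv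
    rw [Finset.mem_product] at hp hq
    by_cases hxx : x = x'
    · have hyy : y ≠ y' := fun h => huv (by rw [hxx, h])
      obtain ⟨i, hi⟩ := hT y hp.2 y' hq.2 hyy
      refine ⟨Fin.natAdd n i, ?_⟩
      show Far (Fin.append x y (Fin.natAdd n i)) (Fin.append x' y' (Fin.natAdd n i))
      rw [Fin.append_right, Fin.append_right]
      exact hi
    · obtain ⟨i, hi⟩ := hS x hp.1 x' hq.1 hxx
      refine ⟨Fin.castAdd m i, ?_⟩
      show Far (Fin.append x y (Fin.castAdd m i)) (Fin.append x' y' (Fin.castAdd m i))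
      rw [Fin.append_left, Fin.append_left]
      exact hi

theorem main_set (k : ℕ) : ∃ S : Finset (Fin (5 + 2 * k) → ZMod 5), S.card = 51 * 5 ^ k ∧ ∀ x ∈ S, ∀ y ∈ S, x ≠ y → ∃ i, Far (x i) (y i) := by
  induction k with
  | zero =>
    have h := set_of_codes (n := 5) codes codes_far codes_card
    rw [pow_zero, mul_one]
    exact h
  | succ k ih =>
    have h := prod_set ih (set_of_codes (n := 2) codes2 codes2_far codes2_card)
    rw [pow_succ, ← mul_assoc]
    exact h

theorem main_bound (k : ℕ) : 51 * 5 ^ k ≤ (strongPower (5 + 2 * k)).indepNum := by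
  obtain ⟨S, hS, hS'⟩ := main_set k
  have h : (strongPower (5 + 2 * k)).IsIndepSet (S : Set (Fin (5 + 2 * k) → ZMod 5)) :=
    (indep_iff _).2 fun x hx y hy => hS' x (Finset.mem_coe.1 hx) y (Finset.mem_coe.1 hy)
  rw [← hS]
  exact h.card_le_indepNum

end Pool.Agent.H37I
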