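import Pool.Agent.Lib.H37I.C5

/-!
# MP_a08742_co, Q1: Sonnemann's formula for the independence numbers of the strong powers of the 5-cycle fails for every odd exponent `n ≥ 5`
-/

set_option autoImplicit false

namespace Pool.Agent.H37I.OddPowers

open Pool.Agent.H37I

/-- For every odd `n ≥ 5` the `n`-th strong power of the 5-cycle has an independent set with at least `51 · 5 ^ ((n - 5) / 2)` vertices, which is more than the conjectured value `2 · 5 ^ ((n - 1) / 2)`. -/
theorem result (n : ℕ) (hn : Odd n) (h5 : 5 ≤ n) :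
    51 * 5 ^ ((n - 5) / 2) ≤ (strongPower n).indepNum ∧ 2 * 5 ^ ((n - 1) / 2) < (strongPower n).indepNum := by
  obtain ⟨k, rfl⟩ : ∃ k, n = 5 + 2 * k := by
    obtain ⟨m, hm⟩ := hn
    exact ⟨m - 2, by omega⟩
  have h1 : (5 + 2 * k - 5) / 2 = k := by omega
  have h2 : (5 + 2 * k - 1) / 2 = k + 2 := by omega
  have h3 := main_bound k
  rw [h1, h2]
  refine ⟨h3, lt_of_lt_of_le ?_ h3⟩
  have h4 : 0 < 5 ^ k := pow_pos (by norm_num) k
  rw [pow_add]
  omega

end Pool.Agent.H37I.OddPowers
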